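import Mathlib
import Pool.Agent.Lib.MP_91840b_co.Defs
import Pool.Agent.Lib.MP_91840b_co.Main

/-!
`L_{n,m}` is a least reliable connected simple graph with `n` vertices and `m` edges, for every
edge probability.
-/

namespace Pool.Agent.Results.MP_91840b_co.LeastReliable

open Pool.Agent.MP_91840b_co

universe u

/-- Let `G` be a connected simple graph with `n ≥ 2` vertices and `m` edges. Then `m` has the form
`s.choose 2 + k + (n - s - 1)` with `1 ≤ s ≤ n - 1` and `1 ≤ k ≤ s`; and, for all such `s, k` and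
all choices of the attachments of the bridges, the graph `L_{n,m}` is connected, has `m` edges,
and satisfies `Rel(L_{n,m}; p) ≤ Rel(G; p)` for every `p ∈ [0,1]`. -/
theorem result {V : Type u} [Fintype V] (G : SimpleGraph V) (hG : G.Connected)
    (n m : ℕ) (hn : Fintype.card V = n) (hn2 : 2 ≤ n) (hm : edgeCount G = m) :
    (∃ s k : ℕ, 1 ≤ s ∧ s + 1 ≤ n ∧ 1 ≤ k ∧ k ≤ s ∧ m = s.choose 2 + k + (n - s - 1)) ∧
    ∀ (s k : ℕ) (a : ℕ → ℕ), 1 ≤ s → s + 1 ≤ n → 1 ≤ k → k ≤ s →
      m = s.choose 2 + k + (n - s - 1) → (∀ j, s < j → j < n → a j < j) →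
      (lgraph n s k a).Connected ∧ edgeCount (lgraph n s k a) = m ∧
        ∀ p : ℝ, 0 ≤ p → p ≤ 1 → rel (lgraph n s k a) p ≤ rel G p := by
  have hb := edgeCount_bounds G hG
  rw [hn, hm] at hb
  refine ⟨exists_shape n m hn2 hb.1 hb.2, ?_⟩
  intro s k a hs hsn hk hks hmsk ha
  refine ⟨lgraph_connected a hs (by omega) hk ha, ?_, ?_⟩
  · obtain ⟨N, rfl⟩ : ∃ N, n = N + 1 := ⟨n - 1, by omega⟩
    have h := (lgraph_Zg 1 s k hks a N (by omega) ha).2
    have h' : edgeCount (lgraph (N + 1) s k a) = s.choose 2 + k + (N - s) := h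
    omega
  · intro p hp0 hp1
    exact least_reliable n s k hsn hk hks a ha G hn hG (by omega) p hp0 hp1

end Pool.Agent.Results.MP_91840b_co.LeastReliable
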